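import Pool.Agent.Helper13.FR.Stmts
import Pool.Agent.Helper67.MD.NUS

set_option autoImplicit false

open Finset Filter
open scoped ComplexConjugate

namespace Pool.Agent.Helper13.FR

open Pool.Agent.Helper16.MD

theorem st_FPA : ST_FPA := by
  intro Λ b hΛ
  have : NeZero Λ := ⟨by omega⟩
  have e0 : ∀ x : ℕ, ∑ ξ ∈ range Λ, b ξ * ee ((ξ : ℝ) * x / Λ) =
      ∑ Z : ZMod Λ, b Z.val * ed (Z * (x : ZMod Λ)) := by
    intro x
    rw [← nus_sum (fun Z : ZMod Λ => b Z.val * ed (Z * (x : ZMod Λ)))]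
    refine Finset.sum_congr rfl fun s hs => ?_
    rw [ZMod.val_cast_of_lt (Finset.mem_range.1 hs)]
    congr 1
    have h := nus_ee (D := Λ) ((s : ℤ) * x)
    have h1 : ((((s : ℤ) * x : ℤ)) : ℝ) = (s : ℝ) * x := by push_cast; ring
    rw [h1] at h
    rw [h]
    congr 1
    push_cast
    ring
  have e1 : ∑ x ∈ range Λ, ‖∑ ξ ∈ range Λ, b ξ * ee ((ξ : ℝ) * x / Λ)‖ ^ 2 =
      ∑ z : ZMod Λ, ‖∑ Z : ZMod Λ, b Z.val * ed (Z * z)‖ ^ 2 := by
    rw [← nus_sum (fun z : ZMod Λ => ‖∑ Z : ZMod Λ, b Z.val * ed (Z * z)‖ ^ 2)]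
    refine Finset.sum_congr rfl fun x _ => ?_
    rw [e0 x]
  rw [e1, dil_parseval (fun Z : ZMod Λ => b Z.val)]
  congr 1
  rw [← nus_sum (fun Z : ZMod Λ => ‖b Z.val‖ ^ 2)]
  refine Finset.sum_congr rfl fun s hs => ?_
  rw [ZMod.val_cast_of_lt (Finset.mem_range.1 hs)]

end Pool.Agent.Helper13.FR
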